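import Pool.Agent.helper53.SP4.Spec

set_option autoImplicit false

namespace Pool.Agent.SP4

/-- the vector with the coordinates `a, b, c, d` -/
def S4P_v {F : Type} [Field F] (e1 e2 f2 f1 : Fin 4 → F) (a b c d : F) : Fin 4 → F :=
  a • e1 + b • e2 + c • f2 + d • f1

theorem S4P_Bv {F : Type} [Field F] (u e1 e2 f2 f1 : Fin 4 → F) (a b c d : F) :
    B u (S4P_v e1 e2 f2 f1 a b c d) = a * B u e1 + b * B u e2 + c * B u f2 + d * B u f1 := by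
  simp only [B, S4P_v, Pi.add_apply, Pi.smul_apply, smul_eq_mul]
  ring

theorem S4P_ap {F : Type} [Field F] (g h : SG F) (w : Fin 4 → F) :
    ((g * h : SG F) : (Fin 4 → F) ≃ₗ[F] (Fin 4 → F)) w =
      (g : (Fin 4 → F) ≃ₗ[F] (Fin 4 → F)) ((h : (Fin 4 → F) ≃ₗ[F] (Fin 4 → F)) w) := rfl

theorem S4P_inv {F : Type} [Field F] (g : SG F) (u w : Fin 4 → F)
    (h : (g : (Fin 4 → F) ≃ₗ[F] (Fin 4 → F)) u = w) :
    ((g⁻¹ : SG F) : (Fin 4 → F) ≃ₗ[F] (Fin 4 → F)) w = u := by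
  have h1 : ((g⁻¹ * g : SG F) : (Fin 4 → F) ≃ₗ[F] (Fin 4 → F)) u = u := by
    rw [inv_mul_cancel]; rfl
  rw [S4P_ap, h] at h1
  exact h1

theorem S4P (hS4B : S4B_stmt) (hS4W : S4W_stmt) : S4P_stmt := by
  intro F _ _ e1 e2 f2 f1 t1 s1 t2 s2 hG ht1 hs1 ht2 hs2
  obtain ⟨hB0, hBs, -, -, -, -, -, -, -, -, -, -⟩ := hS4B F
  obtain ⟨g, g0, g1, g2, g3⟩ := (hS4W F).1 e1 e2 f2 f1 hG
  obtain ⟨b11, b22, b12, b12', b21, bff⟩ := hG
  have two : ∀ x : F, x + x = 0 := fun x => CharTwo.add_self_eq_zero x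
  -- values of the form
  have c11 : B f1 e1 = 1 := by rw [hBs]; exact b11
  have c22 : B f2 e2 = 1 := by rw [hBs]; exact b22
  have c12 : B e2 e1 = 0 := by rw [hBs]; exact b12
  have c12' : B f2 e1 = 0 := by rw [hBs]; exact b12'
  have c21 : B f1 e2 = 0 := by rw [hBs]; exact b21
  have cff : B f2 f1 = 0 := by rw [hBs]; exact bff
  have d1 := hB0 e1
  have d2 := hB0 e2
  have d3 := hB0 f2
  have d4 := hB0 f1
  -- the action
  have k1 : ∀ a b c d : F, (t1 : (Fin 4 → F) ≃ₗ[F] (Fin 4 → F)) (S4P_v e1 e2 f2 f1 a b c d) =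
      S4P_v e1 e2 f2 f1 a b (c + b) d := by
    intro a b c d
    rw [ht1, S4P_Bv, c12', c22, d3, cff]
    simp only [S4P_v]
    module
  have k2 : ∀ a b c d : F, (s1 : (Fin 4 → F) ≃ₗ[F] (Fin 4 → F)) (S4P_v e1 e2 f2 f1 a b c d) =
      S4P_v e1 e2 f2 f1 a (b + a) c (d + c) := by
    intro a b c d
    rw [hs1, S4P_Bv, S4P_Bv, c12, d2, b22, b21, c11, c21, bff, d4]
    simp only [S4P_v]
    module
  have k3 : ∀ a b c d : F, (t2 : (Fin 4 → F) ≃ₗ[F] (Fin 4 → F)) (S4P_v e1 e2 f2 f1 a b c d) =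
      S4P_v e1 e2 f2 f1 a (b + c) c d := by
    intro a b c d
    rw [ht2, S4P_Bv, c12, d2, b22, b21]
    simp only [S4P_v]
    module
  have k4 : ∀ a b c d : F, (s2 : (Fin 4 → F) ≃ₗ[F] (Fin 4 → F)) (S4P_v e1 e2 f2 f1 a b c d) =
      S4P_v e1 e2 f2 f1 (a + b) b (c + d) d := by
    intro a b c d
    rw [hs2, S4P_Bv, S4P_Bv, d1, b12, b12', b11, c12', c22, d3, cff]
    simp only [S4P_v]
    module
  have cong : ∀ a b c d a' b' c' d' : F, a = a' → b = b' → c = c' → d = d' →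
      S4P_v e1 e2 f2 f1 a b c d = S4P_v e1 e2 f2 f1 a' b' c' d' := by
    intro a b c d a' b' c' d' h1 h2 h3 h4
    rw [h1, h2, h3, h4]
  have j1 : ∀ a b c d : F, ((t1⁻¹ : SG F) : (Fin 4 → F) ≃ₗ[F] (Fin 4 → F)) (S4P_v e1 e2 f2 f1 a b c d) =
      S4P_v e1 e2 f2 f1 a b (c + b) d := by
    intro a b c d
    refine S4P_inv _ _ _ ?_
    rw [k1]
    exact cong _ _ _ _ _ _ _ _ rfl rfl (by rw [add_assoc, two, add_zero]) rfl
  have j3 : ∀ a b c d : F, ((t2⁻¹ : SG F) : (Fin 4 → F) ≃ₗ[F] (Fin 4 → F)) (S4P_v e1 e2 f2 f1 a b c d) =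
      S4P_v e1 e2 f2 f1 a (b + c) c d := by
    intro a b c d
    refine S4P_inv _ _ _ ?_
    rw [k3]
    exact cong _ _ _ _ _ _ _ _ rfl (by rw [add_assoc, two, add_zero]) rfl rfl
  have z1 : ∀ a b c d : F, ((s1 * t1⁻¹ : SG F) : (Fin 4 → F) ≃ₗ[F] (Fin 4 → F)) (S4P_v e1 e2 f2 f1 a b c d) =
      S4P_v e1 e2 f2 f1 a (b + a) (c + b) (d + (c + b)) := by
    intro a b c d
    rw [S4P_ap, j1, k2]
  have z2 : ∀ a b c d : F, ((s2 * t2⁻¹ : SG F) : (Fin 4 → F) ≃ₗ[F] (Fin 4 → F)) (S4P_v e1 e2 f2 f1 a b c d) =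
      S4P_v e1 e2 f2 f1 (a + (b + c)) (b + c) (c + d) d := by
    intro a b c d
    rw [S4P_ap, j3, k4]
  have z2i : ∀ a b c d : F, (((s2 * t2⁻¹)⁻¹ : SG F) : (Fin 4 → F) ≃ₗ[F] (Fin 4 → F)) (S4P_v e1 e2 f2 f1 a b c d) =
      S4P_v e1 e2 f2 f1 (a + b) (b + c + d) (c + d) d := by
    intro a b c d
    refine S4P_inv _ _ _ ?_
    rw [z2]
    exact cong _ _ _ _ _ _ _ _ (by linear_combination two b + two c + two d) (by linear_combination two c + two d)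
      (by linear_combination two d) rfl
  have zz : ∀ a b c d : F, (((s1 * t1⁻¹) * (s1 * t1⁻¹) * (s2 * t2⁻¹) * (s1 * t1⁻¹) * (s2 * t2⁻¹)⁻¹ : SG F) :
      (Fin 4 → F) ≃ₗ[F] (Fin 4 → F)) (S4P_v e1 e2 f2 f1 a b c d) =
      S4P_v e1 e2 f2 f1 (c + d) (a + b + c + d) c (a + d) := by
    intro a b c d
    rw [S4P_ap, S4P_ap, S4P_ap, S4P_ap, z2i, z1, z2, z1, z1]
    refine cong _ _ _ _ _ _ _ _ ?_ ?_ ?_ ?_
    · linear_combination two a + two b + two b + two c + two d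
    · linear_combination two (2 * a + 5 * b + 4 * c + 4 * d)
    · linear_combination two (2 * a + 6 * b + 6 * c + 7 * d)
    · linear_combination two (2 * a + 9 * b + 11 * c + 12 * d)
  generalize ((s1 * t1⁻¹) * (s1 * t1⁻¹) * (s2 * t2⁻¹) * (s1 * t1⁻¹) * (s2 * t2⁻¹)⁻¹ : SG F) = Z at zz ⊢
  constructor
  · apply Subtype.ext
    apply LinearEquiv.ext
    intro w
    obtain ⟨x, hx⟩ := (g : (Fin 4 → F) ≃ₗ[F] (Fin 4 → F)).surjective w
    have hx2 : x = x 0 • (Pi.single 0 1 : Fin 4 → F) + x 1 • (Pi.single 1 1 : Fin 4 → F) + x 2 • (Pi.single 2 1 : Fin 4 → F) +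
        x 3 • (Pi.single 3 1 : Fin 4 → F) := by
      funext i
      fin_cases i <;> simp
    have hw : w = S4P_v e1 e2 f2 f1 (x 0) (x 1) (x 2) (x 3) := by
      rw [← hx]
      conv_lhs => rw [hx2]
      rw [map_add, map_add, map_add, map_smul, map_smul, map_smul, map_smul, g0, g1, g2, g3]
      rfl
    rw [pow_succ, pow_two, S4P_ap, S4P_ap, hw, zz, zz, zz]
    refine cong _ _ _ _ _ _ _ _ ?_ ?_ ?_ ?_
    · linear_combination two (x 2) + two (x 3)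
    · linear_combination two (2 * x 0 + 3 * x 2 + 3 * x 3)
    · rfl
    · linear_combination two (x 0 + x 2 + x 3)
  · intro hZ
    have h1 := zz 1 0 0 0
    rw [hZ] at h1
    have h2 : B f1 (S4P_v e1 e2 f2 f1 1 0 0 0) = B f1 (S4P_v e1 e2 f2 f1 (0 + 0) (1 + 0 + 0 + 0) 0 (1 + 0)) := by
      rw [← h1]; rfl
    rw [S4P_Bv, S4P_Bv, c11, c21, bff, d4] at h2
    simp at h2

end Pool.Agent.SP4
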